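import Mathlib

/-!
# Number fields: heights, radicals and self-maps of the line `x0 + x1 + x2 = 0`
-/

set_option autoImplicit false

namespace Pool.Agent.Q239.NF

open NumberField IsDedekindDomain Height

variable {K : Type} [Field K] [NumberField K]

/-- the logarithm of the norm of the prime ideal -/
noncomputable def lN (v : FinitePlace K) : ℝ :=
  Real.log ((Ideal.absNorm v.maximalIdeal.asIdeal : ℕ) : ℝ)

lemma lN_nonneg (v : FinitePlace K) : 0 ≤ lN v := Real.log_natCast_nonneg _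

lemma N_pos (v : FinitePlace K) : (0 : ℝ) < ((Ideal.absNorm v.maximalIdeal.asIdeal : ℕ) : ℝ) := by
  have h3 : Ideal.absNorm v.maximalIdeal.asIdeal ≠ 0 := by
    rw [Ne, Ideal.absNorm_eq_zero_iff]
    exact v.maximalIdeal.ne_bot
  exact_mod_cast Nat.pos_of_ne_zero h3

/-- the values of a finite place -/
lemma fin_gap (v : FinitePlace K) {y : K} (hy : y ≠ 0) (h : v y < 1) :
    ((Ideal.absNorm v.maximalIdeal.asIdeal : ℕ) : ℝ) * v y ≤ 1 := by
  obtain ⟨a, b, hb, rfl⟩ := IsFractionRing.div_surjective (A := 𝓞 K) y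
  have hb0 : b ≠ 0 := nonZeroDivisors.ne_zero hb
  have ha0 : a ≠ 0 := by
    rintro rfl
    rw [map_zero, zero_div] at hy
    exact hy rfl
  have h1 := FinitePlace.apply_mul_absNorm_pow_eq_one v ha0
  have h2 := FinitePlace.apply_mul_absNorm_pow_eq_one v hb0
  set N : ℝ := ((Ideal.absNorm v.maximalIdeal.asIdeal : ℕ) : ℝ) with hN
  have hN1 : 1 ≤ N := by
    have h3 : Ideal.absNorm v.maximalIdeal.asIdeal ≠ 0 := by
      rw [Ne, Ideal.absNorm_eq_zero_iff]
      exact v.maximalIdeal.ne_bot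
    have h4 : 1 ≤ Ideal.absNorm v.maximalIdeal.asIdeal := Nat.one_le_iff_ne_zero.2 h3
    rw [hN]
    exact_mod_cast h4
  have hN0 : 0 < N := by linarith
  set i := multiplicity v.maximalIdeal.asIdeal (Ideal.span {a}) with hi
  set j := multiplicity v.maximalIdeal.asIdeal (Ideal.span {b}) with hj
  have hva : v (algebraMap (𝓞 K) K a) = (N ^ i)⁻¹ := eq_inv_of_mul_eq_one_left h1
  have hvb : v (algebraMap (𝓞 K) K b) = (N ^ j)⁻¹ := eq_inv_of_mul_eq_one_left h2
  rw [map_div₀, hva, hvb] at h ⊢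
  have h5 : (N ^ i)⁻¹ / (N ^ j)⁻¹ = N ^ j / N ^ i := by field_simp
  rw [h5] at h ⊢
  have h6 : N ^ j < N ^ i := by
    rw [div_lt_one (pow_pos hN0 _)] at h
    exact h
  have h7 : j < i := by
    by_contra hc
    exact absurd (pow_le_pow_right₀ hN1 (not_lt.1 hc)) (not_le.2 h6)
  rw [← mul_div_assoc, div_le_one (pow_pos hN0 _), ← pow_succ']
  exact pow_le_pow_right₀ hN1 h7

lemma gap_log (v : FinitePlace K) {y : K} (hy : y ≠ 0) (h : v y < 1) :
    lN v ≤ -Real.log (v y) := by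
  have h1 := fin_gap v hy h
  have h2 : 0 < v y := v.1.pos hy
  have h3 := Real.log_le_log (mul_pos (N_pos v) h2) h1
  rw [Real.log_mul (N_pos v).ne' h2.ne', Real.log_one] at h3
  unfold lN
  linarith

/-- the gap between two different values -/
lemma gap2 (v : FinitePlace K) {y z : K} (hy : y ≠ 0) (hz : z ≠ 0) (h : v y < v z) :
    lN v ≤ Real.log (v z) - Real.log (v y) := by
  have hy' : 0 < v y := v.1.pos hy
  have hz' : 0 < v z := v.1.pos hz
  have h1 : v (y / z) < 1 := by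
    rw [map_div₀, div_lt_one hz']; exact h
  have h2 := gap_log v (div_ne_zero hy hz) h1
  rw [map_div₀, Real.log_div hy'.ne' hz'.ne'] at h2
  linarith

lemma fin_ne_one {c : K} (hc : c ≠ 0) : {v : FinitePlace K | v c ≠ 1}.Finite :=
  FinitePlace.hasFiniteMulSupport hc

lemma int_le (v : FinitePlace K) (m : ℤ) : v (m : K) ≤ 1 := by
  have h : ((m : 𝓞 K) : K) = (m : K) := by
    rw [RingOfIntegers.coe_eq_algebraMap, map_intCast]
  rw [← h, ← FinitePlace.norm_embedding_eq]
  exact FinitePlace.norm_le_one K v.maximalIdeal _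

lemma nat_le (v : FinitePlace K) (m : ℕ) : v (m : K) ≤ 1 := by
  exact_mod_cast int_le v (m : ℤ)

/-- the size of a vector at a place -/
lemma sup_fin {ι : Type} [Finite ι] {u : ι → K} (hu : u ≠ 0) :
    {v : FinitePlace K | (⨆ i, v (u i)) ≠ 1}.Finite := by
  classical
  obtain ⟨i0, hi0⟩ := Function.ne_iff.1 hu
  have : Nonempty ι := ⟨i0⟩
  have h1 : (⋃ i : {i : ι // u i ≠ 0}, {v : FinitePlace K | v (u i) ≠ 1}).Finite :=
    Set.finite_iUnion fun i => fin_ne_one i.2
  refine h1.subset ?_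
  intro v hv
  by_contra hcon
  simp only [Set.mem_iUnion, not_exists] at hcon
  apply hv
  have h2 : ∀ i, u i ≠ 0 → v (u i) = 1 := by
    intro i hi
    by_contra h
    exact hcon ⟨i, hi⟩ h
  apply le_antisymm
  · refine ciSup_le fun i => ?_
    by_cases hi : u i = 0
    · rw [hi, map_zero]; exact zero_le_one
    · exact (h2 i hi).le
  · rw [← h2 i0 hi0]
    exact le_ciSup (f := fun i => v (u i)) (Finite.bddAbove_range _) i0

/-- the places at which the absolute values of the coordinates are not all equal -/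
def Bad (x : Fin 3 → K) : Set (FinitePlace K) := {v | ∃ i j, v (x i) ≠ v (x j)}

/-- the radical, not divided by the degree -/
noncomputable def RR (x : Fin 3 → K) : ℝ := ∑ᶠ v ∈ Bad x, lN v

lemma bad_finite {x : Fin 3 → K} (hx : ∀ i, x i ≠ 0) : (Bad x).Finite := by
  have h1 : (⋃ i, {v : FinitePlace K | v (x i) ≠ 1}).Finite :=
    Set.finite_iUnion fun i => fin_ne_one (hx i)
  refine h1.subset ?_
  rintro v ⟨i, j, hij⟩
  by_contra hcon
  simp only [Set.mem_iUnion, not_exists, Set.mem_ofPred_eq, not_not] at hcon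
  exact hij (by rw [hcon i, hcon j])

lemma RR_eq (x : Fin 3 → K) : RR x = ∑ᶠ v, (Bad x).indicator lN v := by
  unfold RR
  rw [finsum_mem_def]

lemma RR_nonneg (x : Fin 3 → K) : 0 ≤ RR x := by
  rw [RR_eq]
  exact finsum_nonneg fun v => Set.indicator_nonneg (fun v _ => lN_nonneg v) v

lemma bad_smul (x : Fin 3 → K) {c : K} (hc : c ≠ 0) : Bad (c • x) = Bad x := by
  ext v
  have hc' : 0 < v c := v.1.pos hc
  unfold Bad
  simp only [Set.mem_ofPred_eq, Pi.smul_apply, smul_eq_mul, map_mul]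
  constructor
  · rintro ⟨i, j, h⟩
    exact ⟨i, j, fun h1 => h (by rw [h1])⟩
  · rintro ⟨i, j, h⟩
    exact ⟨i, j, fun h1 => h (mul_left_cancel₀ hc'.ne' h1)⟩

lemma RR_smul (x : Fin 3 → K) {c : K} (hc : c ≠ 0) : RR (c • x) = RR x := by
  unfold RR
  rw [bad_smul x hc]

/-- the product formula -/
lemma sum_log {y : K} (hy : y ≠ 0) :
    ∑ w : InfinitePlace K, (w.mult : ℝ) * Real.log (w y) +
      ∑ᶠ v : FinitePlace K, Real.log (v y) = 0 := by
  have h := prod_abs_eq_one hy
  have hw : ∀ w : InfinitePlace K, 0 < w y := fun w => w.1.pos hy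
  have hv : ∀ v : FinitePlace K, 0 < v y := fun v => v.1.pos hy
  have h1 : (∏ w : InfinitePlace K, w y ^ w.mult) ≠ 0 :=
    (Finset.prod_pos fun w _ => pow_pos (hw w) _).ne'
  have h2 : (∏ᶠ v : FinitePlace K, v y) ≠ 0 := by
    intro h2
    rw [h2, mul_zero] at h
    exact zero_ne_one h
  have h3 := congrArg Real.log h
  rw [Real.log_mul h1 h2, Real.log_one, Real.log_prod (fun w _ => (pow_pos (hw w) _).ne'),
    Real.log_finprod hv] at h3
  rw [← h3]
  congr 1
  refine Finset.sum_congr rfl fun w _ => ?_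
  rw [Real.log_pow]

lemma sup_pos {ι : Type} [Finite ι] {x : ι → K} (hx : x ≠ 0) (v : AbsoluteValue K ℝ) :
    0 < ⨆ i, v (x i) := by
  obtain ⟨i, hi⟩ := Function.ne_iff.1 hx
  exact lt_of_lt_of_le (v.pos hi) (le_ciSup (f := fun i => v (x i)) (Finite.bddAbove_range _) i)

lemma height_eq {ι : Type} [Finite ι] {x : ι → K} (hx : x ≠ 0) :
    logHeight x = ∑ w : InfinitePlace K, (w.mult : ℝ) * Real.log (⨆ i, w (x i)) +
      ∑ᶠ v : FinitePlace K, Real.log (⨆ i, v (x i)) := by
  rw [logHeight_eq_log_mulHeight, NumberField.mulHeight_eq hx]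
  have hw : ∀ w : InfinitePlace K, 0 < ⨆ i, w (x i) := fun w => sup_pos hx w.1
  have hv : ∀ v : FinitePlace K, 0 < ⨆ i, v (x i) := fun v => sup_pos hx v.1
  have h0 : 0 < (∏ᶠ v : FinitePlace K, ⨆ i, v (x i)) := 
    finprod_induction (fun x : ℝ => 0 < x) one_pos (fun _ _ ha hb => mul_pos ha hb) hv
  have h1 : (∏ w : InfinitePlace K, (⨆ i, w (x i)) ^ w.mult) ≠ 0 :=
    (Finset.prod_pos fun w _ => pow_pos (hw w) _).ne'
  rw [Real.log_mul h1 h0.ne', Real.log_prod (fun w _ => (pow_pos (hw w) _).ne'),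
    Real.log_finprod hv]
  congr 1
  refine Finset.sum_congr rfl fun w _ => ?_
  rw [Real.log_pow]

end Pool.Agent.Q239.NF
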