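import Pool.Agent.Q239.NF.Shape

/-!
# Normalised heights and radicals
-/

set_option autoImplicit false

namespace Pool.Agent.Q239.NF

open NumberField IsDedekindDomain Height

variable {K : Type} [Field K] [NumberField K]

/-- the absolute logarithmic height of the point with coordinates `x` -/
noncomputable def height {ι : Type} (x : ι → K) : ℝ :=
  Height.logHeight x / (Module.finrank ℚ K : ℝ)

/-- the radical: the sum of `log N(v) / [K : ℚ]` over the finite places at which the absolute values
of the coordinates are not all equal -/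
noncomputable def rad (x : Fin 3 → K) : ℝ :=
  (∑ᶠ v ∈ {v : FinitePlace K | ∃ i j, v (x i) ≠ v (x j)},
    Real.log ((Ideal.absNorm v.maximalIdeal.asIdeal : ℕ) : ℝ)) / (Module.finrank ℚ K : ℝ)

/-- **the abc inequality for the points of `S`**: for every `ε > 0` there is `C` such that
`h(P) < (1 + ε) rad(P) + C` for all points `P = (x 0 : x 1 : x 2)` with coordinate vector `x` in `S`,
`x 0 + x 1 + x 2 = 0` and nonzero coordinates -/
def ABC (S : Set (Fin 3 → K)) : Prop :=
  ∀ ε : ℝ, 0 < ε → ∃ C : ℝ, ∀ x ∈ S, x 0 + x 1 + x 2 = 0 → (∀ i, x i ≠ 0) →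
    height x < (1 + ε) * rad x + C

lemma finrank_pos' : (0 : ℝ) < (Module.finrank ℚ K : ℝ) := by exact_mod_cast Module.finrank_pos

theorem abc_iff (S : Set (Fin 3 → K)) : ABC S ↔ abcOn S := by
  have hd := finrank_pos' (K := K)
  set d : ℝ := (Module.finrank ℚ K : ℝ) with hdd
  have h1 : ∀ x : Fin 3 → K, d * height x = logHeight x := by
    intro x; unfold height; rw [mul_div_cancel₀ _ hd.ne']
  have h2 : ∀ x : Fin 3 → K, d * rad x = RR x := by
    intro x; unfold rad; rw [mul_div_cancel₀ _ hd.ne']; rfl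
  constructor
  · intro h ε hε
    obtain ⟨C, hC⟩ := h ε hε
    refine ⟨d * C, fun x hxS hx => ?_⟩
    have h3 := mul_le_mul_of_nonneg_left (hC x hxS hx.1 hx.2).le hd.le
    rw [h1, mul_add] at h3
    have h4 : d * ((1 + ε) * rad x) = (1 + ε) * RR x := by rw [← h2]; ring
    rwa [h4] at h3
  · intro h ε hε
    obtain ⟨C, hC⟩ := h ε hε
    refine ⟨C / d + 1, fun x hxS hx0 hx => ?_⟩
    have h3 := hC x hxS ⟨hx0, hx⟩
    rw [← h1, ← h2] at h3
    have h4 : d * height x ≤ d * ((1 + ε) * rad x + C / d) := by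
      have : d * (C / d) = C := mul_div_cancel₀ _ hd.ne'
      rw [mul_add, this]; linarith
    have h5 := le_of_mul_le_mul_left h4 hd
    linarith

theorem abcOn_mono {S S' : Set (Fin 3 → K)} (h : S ⊆ S') : abcOn S' → abcOn S :=
  fun hS ε hε => (hS ε hε).imp fun _ hC x hx => hC x (h hx)

end Pool.Agent.Q239.NF
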