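import Pool.Agent.Q239.NF.Step

/-!
# Iteration of a self-map, and transfer of the abc inequality
-/

set_option autoImplicit false

namespace Pool.Agent.Q239.NF

open NumberField IsDedekindDomain Height

/-- a self-map of the line of degree `e + 1` with its critical points -/
structure Step (K : Type) [Field K] [NumberField K] extends Ram K where
  he : 1 ≤ e
  up : ∃ C : ℝ, ∀ x, logHeight (T x) ≤ C + (e + 1) * logHeight x
  lo : ∃ C : ℝ, ∀ x, Good x → (e + 1) * logHeight x ≤ C + logHeight (T x)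
  Ezero : ∃ C : ℝ, ∀ x, Good x → E x = 0 → logHeight x ≤ C

variable {K : Type} [Field K] [NumberField K]

theorem Step.iter (s : Step K) (n : ℕ) : ∃ C : ℝ, 0 ≤ C ∧ ∀ x, Good x →
    logHeight x ≤ C ∨ (Good (s.T^[n] x) ∧
      logHeight (s.T^[n] x) ≤ C + ((s.e : ℝ) + 1) ^ n * logHeight x ∧
      ((s.e : ℝ) + 1) ^ n * logHeight x ≤ C + logHeight (s.T^[n] x) ∧
      RR (s.T^[n] x) ≤ RR x + (((s.e : ℝ) + 1) ^ n - 1) * logHeight x + C) := by
  obtain ⟨Cu, hu⟩ := s.up
  obtain ⟨Cl, hl⟩ := s.lo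
  obtain ⟨Cz, hz⟩ := s.Ezero
  obtain ⟨Cr, hr⟩ := s.radical
  have he0 : (0 : ℝ) ≤ s.e := Nat.cast_nonneg _
  induction n with
  | zero =>
    refine ⟨0, le_rfl, fun x hx => Or.inr ⟨hx, ?_, ?_, ?_⟩⟩
    · simp
    · simp
    · simp
  | succ n ih =>
    obtain ⟨C, hC, ih⟩ := ih
    set D : ℝ := (s.e : ℝ) + 1 with hD
    have hD1 : 1 ≤ D := by linarith
    have hDn : 1 ≤ D ^ n := one_le_pow₀ hD1
    refine ⟨(1 + D) * C + |Cu| + |Cl| + |Cz| + |Cr|, by positivity, fun x hx => ?_⟩
    have a1 := le_abs_self Cu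
    have a2 := le_abs_self Cl
    have a3 := le_abs_self Cz
    have a4 := le_abs_self Cr
    have b1 := abs_nonneg Cu
    have b2 := abs_nonneg Cl
    have b3 := abs_nonneg Cz
    have b4 := abs_nonneg Cr
    have hDC : 0 ≤ D * C := by positivity
    rcases ih x hx with h | ⟨h1, h2, h3, h4⟩
    · left
      nlinarith
    · have hh := logHeight_nonneg x
      by_cases hE : s.E (s.T^[n] x) = 0
      · left
        have h5 := hz _ h1 hE
        have h6 : logHeight x ≤ D ^ n * logHeight x := le_mul_of_one_le_left hh hDn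
        nlinarith
      · right
        rw [Function.iterate_succ_apply']
        have h5 := hu (s.T^[n] x)
        have h6 := hl _ h1
        have h7 := hr _ h1 hE
        have h8 : D * logHeight (s.T^[n] x) ≤ D * (C + D ^ n * logHeight x) :=
          mul_le_mul_of_nonneg_left h2 (by linarith)
        have h9 : D * (D ^ n * logHeight x) ≤ D * (C + logHeight (s.T^[n] x)) :=
          mul_le_mul_of_nonneg_left h3 (by linarith)
        have h10 : (s.e : ℝ) * logHeight (s.T^[n] x) ≤ s.e * (C + D ^ n * logHeight x) :=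
          mul_le_mul_of_nonneg_left h2 he0
        have h11 : D ^ (n + 1) = D * D ^ n := pow_succ' _ _
        refine ⟨s.good _ h1 hE, ?_, ?_, ?_⟩
        · rw [h11]
          nlinarith
        · rw [h11]
          nlinarith
        · have e1 : (s.e : ℝ) = D - 1 := by rw [hD]; ring
          rw [h11]
          have h12 : RR (s.T (s.T^[n] x)) ≤ RR x + (D ^ n - 1) * logHeight x + C +
              s.e * (C + D ^ n * logHeight x) + Cr := by linarith
          rw [e1] at h12
          nlinarith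

/-- the abc inequality on a set of points (heights and radicals not divided by the degree) -/
def abcOn (S : Set (Fin 3 → K)) : Prop :=
  ∀ ε : ℝ, 0 < ε → ∃ C : ℝ, ∀ x ∈ S, Good x → logHeight x ≤ (1 + ε) * RR x + C

lemma Good.smul {x : Fin 3 → K} (h : Good x) {c : K} (hc : c ≠ 0) : Good (c • x) := by
  refine ⟨?_, fun i => mul_ne_zero hc (h.2 i)⟩
  have := h.1
  simp only [Pi.smul_apply, smul_eq_mul]
  rw [← mul_add, ← mul_add, this, mul_zero]

/-- one map of degree `D` with controlled radical transfers the abc inequality -/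
theorem transfer (S : Set (Fin 3 → K)) (T : (Fin 3 → K) → (Fin 3 → K)) (D C B : ℝ) (hD : 1 ≤ D)
    (hT : ∀ x, Good x → x 2 = 1 → logHeight x ≤ C ∨ (Good (T x) ∧
      D * logHeight x ≤ C + logHeight (T x) ∧
      RR (T x) ≤ RR x + (D - 1) * logHeight x + C ∧ (B ≤ logHeight (T x) → T x ∈ S))) :
    abcOn S → abcOn (Set.univ : Set (Fin 3 → K)) := by
  intro hS ε hε
  have hD0 : 0 < D := by linarith
  set ε' : ℝ := ε / (D * (1 + ε)) with hε'
  have hε'0 : 0 < ε' := by positivity
  have hkey : ε' * (1 + (1 + ε) * (D - 1)) ≤ ε := by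
    rw [hε', div_mul_eq_mul_div, div_le_iff₀ (by positivity)]
    have : 1 + (1 + ε) * (D - 1) ≤ D * (1 + ε) := by nlinarith
    nlinarith
  obtain ⟨C', hC'⟩ := hS ε' hε'0
  refine ⟨max |C| (max (|C| + |B|) ((1 + ε) * (|C| + |C'| + (1 + ε') * |C|))), fun x _ hx => ?_⟩
  have hRR := RR_nonneg x
  -- normalise
  have hx2 := hx.2 2
  set y : Fin 3 → K := (x 2)⁻¹ • x with hy
  have hyg : Good y := hx.smul (inv_ne_zero hx2)
  have hy2 : y 2 = 1 := by
    rw [hy, Pi.smul_apply, smul_eq_mul, inv_mul_cancel₀ hx2]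
  have e1 : logHeight y = logHeight x := logHeight_smul_eq_logHeight x (inv_ne_zero hx2)
  have e2 : RR y = RR x := RR_smul x (inv_ne_zero hx2)
  have hnn : 0 ≤ (1 + ε) * RR x := by positivity
  have c1 := le_abs_self C
  have c2 := le_abs_self C'
  have c3 := le_abs_self B
  have c4 := abs_nonneg C
  have c5 := abs_nonneg C'
  have c6 := abs_nonneg B
  rcases hT y hyg hy2 with h | ⟨h1, h2, h3, h4⟩
  · rw [e1] at h
    have := le_max_left |C| (max (|C| + |B|) ((1 + ε) * (|C| + |C'| + (1 + ε') * |C|)))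
    linarith
  · rw [e1] at h2 h3
    rw [e2] at h3
    have hh := logHeight_nonneg x
    by_cases hB : B ≤ logHeight (T y)
    · have h5 := hC' _ (h4 hB) h1
      have h6 : (1 + ε') * RR (T y) ≤ (1 + ε') * (RR x + (D - 1) * logHeight x + C) :=
        mul_le_mul_of_nonneg_left h3 (by positivity)
      have h7 : logHeight x * (1 - ε' * (D - 1)) ≤ (1 + ε') * RR x +
          (|C| + |C'| + (1 + ε') * |C|) := by nlinarith
      have h8 : 1 + ε' ≤ (1 + ε) * (1 - ε' * (D - 1)) := by nlinarith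
      have h9 : logHeight x * (1 + ε') ≤ (1 + ε) * ((1 + ε') * RR x +
          (|C| + |C'| + (1 + ε') * |C|)) := by
        calc logHeight x * (1 + ε') ≤ logHeight x * ((1 + ε) * (1 - ε' * (D - 1))) :=
              mul_le_mul_of_nonneg_left h8 hh
          _ = (1 + ε) * (logHeight x * (1 - ε' * (D - 1))) := by ring
          _ ≤ _ := mul_le_mul_of_nonneg_left h7 (by positivity)
      have h10 : 0 ≤ |C| + |C'| + (1 + ε') * |C| := by positivity
      have h11 : logHeight x ≤ (1 + ε) * RR x + (1 + ε) * (|C| + |C'| + (1 + ε') * |C|) := by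
        have h12 : 0 ≤ ε' * ((1 + ε) * (|C| + |C'| + (1 + ε') * |C|)) := by positivity
        have h13 : (1 + ε') * logHeight x ≤ (1 + ε') * ((1 + ε) * RR x +
            (1 + ε) * (|C| + |C'| + (1 + ε') * |C|)) := by nlinarith
        exact le_of_mul_le_mul_left h13 (by positivity)
      have := (le_max_right (|C| + |B|) ((1 + ε) * (|C| + |C'| + (1 + ε') * |C|))).trans
        (le_max_right |C| (max (|C| + |B|) ((1 + ε) * (|C| + |C'| + (1 + ε') * |C|))))
      linarith
    · have h5 : logHeight x ≤ D * logHeight x := le_mul_of_one_le_left hh hD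
      have := (le_max_left (|C| + |B|) ((1 + ε) * (|C| + |C'| + (1 + ε') * |C|))).trans
        (le_max_right |C| (max (|C| + |B|) ((1 + ε) * (|C| + |C'| + (1 + ε') * |C|))))
      push Not at hB
      linarith

/-- the points `(u a ^ p : v b ^ q : w c ^ r)` with `h(1 : u : v : w) ≤ δ h` -/
def Almost (p q r : ℕ) (δ : ℝ) : Set (Fin 3 → K) :=
  {x | ∃ u v w a b c : K, u ≠ 0 ∧ v ≠ 0 ∧ w ≠ 0 ∧ a ≠ 0 ∧ b ≠ 0 ∧ c ≠ 0 ∧
    x = ![u * a ^ p, v * b ^ q, w * c ^ r] ∧ logHeight ![1, u, v, w] ≤ δ * logHeight x}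

theorem Step.almost (s : Step K) {p q r : ℕ} {δ : ℝ} (hδ : 0 < δ)
    (hs : ∃ k : ℝ, 0 ≤ k ∧ ∀ n : ℕ, 2 ≤ n → ∃ C : ℝ, ∀ x : Fin 3 → K, Good x → x 2 = 1 →
      Good (s.T^[n] x) → ∃ u v w a b c : K, u ≠ 0 ∧ v ≠ 0 ∧ w ≠ 0 ∧
      s.T^[n] x = ![u * a ^ p, v * b ^ q, w * c ^ r] ∧
      logHeight ![1, u, v, w] ≤ C + k * logHeight x) (hp : p ≠ 0) (hq : q ≠ 0) (hr : r ≠ 0) :
    abcOn (Almost (K := K) p q r δ) → abcOn (Set.univ : Set (Fin 3 → K)) := by
  obtain ⟨k, hk, hs⟩ := hs
  have hD1 : (1 : ℝ) < (s.e : ℝ) + 1 := by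
    have : (1 : ℝ) ≤ s.e := by exact_mod_cast s.he
    linarith
  obtain ⟨n0, hn0⟩ := pow_unbounded_of_one_lt (2 * k / δ) hD1
  set n := n0 + 2 with hn
  have hn1 : 2 * k / δ ≤ ((s.e : ℝ) + 1) ^ n := by
    refine hn0.le.trans ?_
    exact pow_le_pow_right₀ hD1.le (by omega)
  obtain ⟨C, hC, hiter⟩ := s.iter n
  obtain ⟨C0, hC0⟩ := hs n (by omega)
  set D : ℝ := ((s.e : ℝ) + 1) ^ n with hD
  have hDpos : 1 ≤ D := one_le_pow₀ hD1.le
  have hkD : k ≤ δ / 2 * D := by
    have := (div_le_iff₀ hδ).1 hn1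
    nlinarith
  refine transfer _ (s.T^[n]) D C (2 * (k * C + |C0|) / δ) hDpos ?_
  intro x hx hx2
  rcases hiter x hx with h | ⟨h1, h2, h3, h4⟩
  · exact Or.inl h
  · refine Or.inr ⟨h1, h3, h4, fun hB => ?_⟩
    obtain ⟨u, v, w, a, b, c, hu, hv, hw, hT, hh⟩ := hC0 x hx hx2 h1
    have ha : a ≠ 0 := by
      rintro rfl
      apply h1.2 0
      rw [hT]; simp [hp]
    have hb : b ≠ 0 := by
      rintro rfl
      apply h1.2 1
      rw [hT]; simp [hq]
    have hc : c ≠ 0 := by
      rintro rfl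
      apply h1.2 2
      rw [hT]; simp [hr]
    refine ⟨u, v, w, a, b, c, hu, hv, hw, ha, hb, hc, hT, hh.trans ?_⟩
    have h5 := (div_le_iff₀ hδ).1 hB
    have h6 := le_abs_self C0
    have h7 := logHeight_nonneg x
    have h8 := logHeight_nonneg (s.T^[n] x)
    -- k h ≤ δ/2 D h ≤ δ/2 (C + H)
    have h9 : k * logHeight x * D ≤ (δ / 2 * D) * (C + logHeight (s.T^[n] x)) := by
      calc k * logHeight x * D = k * (D * logHeight x) := by ring
        _ ≤ k * (C + logHeight (s.T^[n] x)) := mul_le_mul_of_nonneg_left h3 hk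
        _ ≤ _ := mul_le_mul_of_nonneg_right hkD (by positivity)
    have h10 : k * logHeight x ≤ k * C + δ / 2 * logHeight (s.T^[n] x) := by
      have h11 : D * (k * logHeight x) ≤ D * (k * C + δ / 2 * logHeight (s.T^[n] x)) := by
        calc D * (k * logHeight x) = k * (D * logHeight x) := by ring
          _ ≤ k * (C + logHeight (s.T^[n] x)) := mul_le_mul_of_nonneg_left h3 hk
          _ = k * C + k * logHeight (s.T^[n] x) := by ring
          _ ≤ D * (k * C) + (δ / 2 * D) * logHeight (s.T^[n] x) := by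
              apply add_le_add
              · exact le_mul_of_one_le_left (by positivity) hDpos
              · exact mul_le_mul_of_nonneg_right hkD h8
          _ = _ := by ring
      exact le_of_mul_le_mul_left h11 (by linarith)
    linarith

end Pool.Agent.Q239.NF
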