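import Pool.Agent.Q239.NF.Iter

/-!
# Three unramified self-maps: signatures `(3,3,3)`, `(2,4,4)`, `(2,3,6)`
-/

set_option autoImplicit false

namespace Pool.Agent.Q239.NF

open NumberField IsDedekindDomain Height MvPolynomial

section poly

variable {K : Type} [Field K]

/-- binary forms in two of the three variables -/
noncomputable def f1 (α β : K) (i j : Fin 3) : MvPolynomial (Fin 3) K := C α * X i + C β * X j

noncomputable def f2 (α β γ : K) (i j : Fin 3) : MvPolynomial (Fin 3) K :=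
  C α * X i ^ 2 + C β * (X i * X j) + C γ * X j ^ 2

noncomputable def f3 (α β γ δ : K) (i j : Fin 3) : MvPolynomial (Fin 3) K :=
  C α * X i ^ 3 + C β * (X i ^ 2 * X j) + C γ * (X i * X j ^ 2) + C δ * X j ^ 3

lemma hX (i : Fin 3) : (X i : MvPolynomial (Fin 3) K).IsHomogeneous 1 := isHomogeneous_X K i

lemma hC {p : MvPolynomial (Fin 3) K} {n : ℕ} (c : K) (hp : p.IsHomogeneous n) :
    (C c * p).IsHomogeneous n := by
  simpa using (isHomogeneous_C (Fin 3) c).mul hp

lemma hf1 (α β : K) (i j : Fin 3) : (f1 α β i j).IsHomogeneous 1 :=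
  (hC α (hX i)).add (hC β (hX j))

lemma hf2 (α β γ : K) (i j : Fin 3) : (f2 α β γ i j).IsHomogeneous 2 :=
  ((hC α ((hX i).pow 2)).add (hC β ((hX i).mul (hX j)))).add (hC γ ((hX j).pow 2))

lemma hf3 (α β γ δ : K) (i j : Fin 3) : (f3 α β γ δ i j).IsHomogeneous 3 :=
  (((hC α ((hX i).pow 3)).add (hC β (((hX i).pow 2).mul (hX j)))).add
    (hC γ ((hX i).mul ((hX j).pow 2)))).add (hC δ ((hX j).pow 3))

end poly

variable {K : Type} [Field K] [NumberField K]

/-! ### local estimates -/

lemma le_sup (v : AbsoluteValue K ℝ) (x : Fin 3 → K) (i : Fin 3) : v (x i) ≤ ⨆ i, v (x i) :=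
  le_ciSup (f := fun i => v (x i)) (Finite.bddAbove_range _) i

lemma sup_nonneg (v : AbsoluteValue K ℝ) (x : Fin 3 → K) : 0 ≤ ⨆ i, v (x i) :=
  (v.nonneg _).trans (le_sup v x 0)

lemma fin_neg (v : FinitePlace K) (y : K) : v (-y) = v y := v.1.map_neg y

lemma fin_sub_le (v : FinitePlace K) (y z : K) : v (y - z) ≤ max (v y) (v z) := by
  rw [sub_eq_add_neg]
  refine (FinitePlace.add_le v y (-z)).trans ?_
  rw [fin_neg]

/-- a linear form with integer coefficients at a finite place -/
lemma fin_lin (v : FinitePlace K) (a b : ℤ) (y z : K) {m : ℝ} (hy : v y ≤ m) (hz : v z ≤ m) :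
    v (a * y + b * z) ≤ m := by
  refine (FinitePlace.add_le v _ _).trans (max_le ?_ ?_)
  · rw [map_mul]
    have h1 : v (a : K) ≤ 1 := int_le v a
    have h2 : 0 ≤ v y := v.1.nonneg _
    nlinarith
  · rw [map_mul]
    have h1 : v (b : K) ≤ 1 := int_le v b
    have h2 : 0 ≤ v z := v.1.nonneg _
    nlinarith

lemma inf_lin (w : InfinitePlace K) (a b : ℤ) (y z : K) {m : ℝ} (hy : w y ≤ m) (hz : w z ≤ m) :
    w (a * y + b * z) ≤ (|a| + |b| : ℤ) * m := by
  have h1 : w (a * y + b * z) ≤ w (a * y) + w (b * z) := w.1.add_le _ _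
  have h2 : w (a : K) = |(a : ℝ)| := by
    have := InfinitePlace.norm_embedding_eq w (a : K)
    rw [← this, map_intCast]
    simp
  have h3 : w (b : K) = |(b : ℝ)| := by
    have := InfinitePlace.norm_embedding_eq w (b : K)
    rw [← this, map_intCast]
    simp
  rw [map_mul, map_mul, h2, h3] at h1
  push_cast
  have h4 := mul_le_mul_of_nonneg_left hy (abs_nonneg (a : ℝ))
  have h5 := mul_le_mul_of_nonneg_left hz (abs_nonneg (b : ℝ))
  nlinarith

/-! ### signature `(3,3,3)` -/

def T33 (x : Fin 3 → K) : Fin 3 → K :=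
  ![x 0 * (x 1 - x 2) ^ 3, x 1 * (x 2 - x 0) ^ 3, x 2 * (x 0 - x 1) ^ 3]

def E33 (x : Fin 3 → K) : K := (x 1 - x 2) * (x 2 - x 0) * (x 0 - x 1)

noncomputable def P33 : Fin 3 → MvPolynomial (Fin 3) K :=
  ![X 0 * (X 1 - X 2) ^ 3, X 1 * (X 2 - X 0) ^ 3, X 2 * (X 0 - X 1) ^ 3]

lemma P33_hom (i : Fin 3) : (P33 (K := K) i).IsHomogeneous 4 := by
  fin_cases i
  · exact (hX 0).mul (((hX 1).sub (hX 2)).pow 3)
  · exact (hX 1).mul (((hX 2).sub (hX 0)).pow 3)
  · exact (hX 2).mul (((hX 0).sub (hX 1)).pow 3)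

lemma P33_eval (x : Fin 3 → K) : (fun j => (P33 (K := K) j).eval x) = T33 x := by
  funext j
  fin_cases j <;> simp [P33, T33]

noncomputable def Q33 : Fin 3 × Fin 3 → MvPolynomial (Fin 3) K := fun kj =>
  if kj.2 = kj.1 then f3 1 (154 / 81) (88 / 81) (16 / 81) kj.1 (kj.1 + 1)
  else if kj.2 = kj.1 + 1 then f3 (80 / 81) (128 / 81) (128 / 81) 0 kj.1 (kj.1 + 1)
  else 0

lemma Q33_hom (a : Fin 3 × Fin 3) : (Q33 (K := K) a).IsHomogeneous 3 := by
  unfold Q33
  split_ifs
  · exact hf3 _ _ _ _ _ _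
  · exact hf3 _ _ _ _ _ _
  · exact isHomogeneous_zero _ _ _

lemma lo_of {P : Fin 3 → MvPolynomial (Fin 3) K} {Q : Fin 3 × Fin 3 → MvPolynomial (Fin 3) K}
    {T : (Fin 3 → K) → (Fin 3 → K)} {M N : ℕ} (hQ : ∀ a, (Q a).IsHomogeneous M)
    (hP : ∀ x : Fin 3 → K, (fun j => (P j).eval x) = T x)
    (h : ∀ x : Fin 3 → K, Good x → ∀ k, ∑ j, (Q (k, j)).eval x * (P j).eval x = x k ^ (M + N)) :
    ∃ C : ℝ, ∀ x : Fin 3 → K, Good x → (N : ℝ) * logHeight x ≤ C + logHeight (T x) := by
  obtain ⟨C, hC⟩ := logHeight_eval_ge' (N := N) hQ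
  refine ⟨-C, fun x hx => ?_⟩
  have := hC P (h x hx)
  rw [hP] at this
  linarith

lemma up_of {P : Fin 3 → MvPolynomial (Fin 3) K}
    {T : (Fin 3 → K) → (Fin 3 → K)} {N : ℕ} (hP' : ∀ i, (P i).IsHomogeneous N)
    (hP : ∀ x : Fin 3 → K, (fun j => (P j).eval x) = T x) :
    ∃ C : ℝ, ∀ x : Fin 3 → K, logHeight (T x) ≤ C + (N : ℝ) * logHeight x := by
  obtain ⟨C, hC⟩ := logHeight_eval_le' hP'
  refine ⟨C, fun x => ?_⟩
  have := hC x
  rwa [hP] at this

lemma zero_of {x : Fin 3 → K} {t : K} (ht : t ≠ 0) (y : Fin 3 → K) (h : x = t • y) {C : ℝ}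
    (hC : logHeight y ≤ C) : logHeight x ≤ C := by
  rw [h, logHeight_smul_eq_logHeight y ht]
  exact hC

/-- the self-map of signature `(3,3,3)` -/
noncomputable def step33 : Step K where
  T := T33
  E := E33
  e := 3
  c := 1
  hc := one_ne_zero
  good := by
    intro x hx hE
    unfold E33 at hE
    have h1 : x 1 - x 2 ≠ 0 := fun h => hE (by rw [h]; ring)
    have h2 : x 2 - x 0 ≠ 0 := fun h => hE (by rw [h]; ring)
    have h3 : x 0 - x 1 ≠ 0 := fun h => hE (by rw [h]; ring)
    have h0 : x 0 = -(x 1 + x 2) := by linear_combination hx.1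
    refine ⟨?_, ?_⟩
    · simp only [T33, Matrix.cons_val_zero, Matrix.cons_val_one, Matrix.cons_val]
      rw [h0]
      ring
    · intro i
      fin_cases i
      · exact mul_ne_zero (hx.2 0) (pow_ne_zero _ h1)
      · exact mul_ne_zero (hx.2 1) (pow_ne_zero _ h2)
      · exact mul_ne_zero (hx.2 2) (pow_ne_zero _ h3)
  Efin := by
    intro v x
    unfold E33
    rw [map_mul, map_mul]
    have h := fun i => le_sup v.1 x i
    have a1 : v (x 1 - x 2) ≤ ⨆ i, v (x i) := (fin_sub_le v _ _).trans (max_le (h 1) (h 2))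
    have a2 : v (x 2 - x 0) ≤ ⨆ i, v (x i) := (fin_sub_le v _ _).trans (max_le (h 2) (h 0))
    have a3 : v (x 0 - x 1) ≤ ⨆ i, v (x i) := (fin_sub_le v _ _).trans (max_le (h 0) (h 1))
    have b1 : 0 ≤ v (x 1 - x 2) := v.1.nonneg _
    have b2 : 0 ≤ v (x 2 - x 0) := v.1.nonneg _
    have b3 : 0 ≤ v (x 0 - x 1) := v.1.nonneg _
    have b0 : 0 ≤ ⨆ i, v (x i) := sup_nonneg v.1 x
    calc v (x 1 - x 2) * v (x 2 - x 0) * v (x 0 - x 1)
        ≤ (⨆ i, v (x i)) * (⨆ i, v (x i)) * (⨆ i, v (x i)) := by gcongr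
      _ = _ := by ring
  Einf := by
    refine ⟨8, by norm_num, fun w x => ?_⟩
    unfold E33
    rw [map_mul, map_mul]
    have h := fun i => le_sup w.1 x i
    have key : ∀ i j, w (x i - x j) ≤ 2 * ⨆ i, w (x i) := by
      intro i j
      have := inf_lin w 1 (-1) (x i) (x j) (h i) (h j)
      norm_num at this
      rwa [← sub_eq_add_neg] at this
    have b : ∀ i j, 0 ≤ w (x i - x j) := fun i j => w.1.nonneg _
    have b0 : 0 ≤ ⨆ i, w (x i) := sup_nonneg w.1 x
    calc w (x 1 - x 2) * w (x 2 - x 0) * w (x 0 - x 1)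
        ≤ (2 * ⨆ i, w (x i)) * (2 * ⨆ i, w (x i)) * (2 * ⨆ i, w (x i)) := by
          gcongr
          · exact key _ _
          · exact key _ _
          · exact key _ _
      _ = _ := by ring
  loc := by
    intro v x m hm hx _ _ hE
    unfold E33 at hE
    rw [map_mul, map_mul] at hE
    have a1 : v (x 1 - x 2) ≤ m := (fin_sub_le v _ _).trans (max_le (hx 1).le (hx 2).le)
    have a2 : v (x 2 - x 0) ≤ m := (fin_sub_le v _ _).trans (max_le (hx 2).le (hx 0).le)
    have a3 : v (x 0 - x 1) ≤ m := (fin_sub_le v _ _).trans (max_le (hx 0).le (hx 1).le)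
    have b1 : 0 ≤ v (x 1 - x 2) := v.1.nonneg _
    have b2 : 0 ≤ v (x 2 - x 0) := v.1.nonneg _
    have b3 : 0 ≤ v (x 0 - x 1) := v.1.nonneg _
    have c1 : v (x 1 - x 2) = m := by
      refine le_antisymm a1 ?_
      by_contra hlt
      push Not at hlt
      have : v (x 1 - x 2) * v (x 2 - x 0) * v (x 0 - x 1) < m * m * m := by
        calc v (x 1 - x 2) * v (x 2 - x 0) * v (x 0 - x 1)
            ≤ v (x 1 - x 2) * m * m := by gcongr
          _ < m * m * m := by gcongr
      nlinarith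
    have c2 : v (x 2 - x 0) = m := by
      refine le_antisymm a2 ?_
      by_contra hlt
      push Not at hlt
      have : v (x 1 - x 2) * v (x 2 - x 0) * v (x 0 - x 1) < m * m * m := by
        calc v (x 1 - x 2) * v (x 2 - x 0) * v (x 0 - x 1)
            ≤ m * v (x 2 - x 0) * m := by gcongr
          _ < m * m * m := by gcongr
      nlinarith
    have c3 : v (x 0 - x 1) = m := by
      rw [c1, c2] at hE
      have : m * m ≠ 0 := by positivity
      have h2 : m ^ 3 = m * m * m := by ring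
      rw [h2] at hE
      exact mul_left_cancel₀ this hE
    have key : ∀ i, v (T33 x i) = m ^ 4 := by
      intro i
      fin_cases i
      · show v (x 0 * (x 1 - x 2) ^ 3) = _
        rw [map_mul, map_pow, hx, c1]; ring
      · show v (x 1 * (x 2 - x 0) ^ 3) = _
        rw [map_mul, map_pow, hx, c2]; ring
      · show v (x 2 * (x 0 - x 1) ^ 3) = _
        rw [map_mul, map_pow, hx, c3]; ring
    intro i j
    rw [key, key]
  he := by norm_num
  up := by
    obtain ⟨C, hC⟩ := up_of (K := K) P33_hom P33_eval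
    refine ⟨C, fun x => ?_⟩
    have := hC x
    norm_num at this ⊢
    exact this
  lo := by
    obtain ⟨C, hC⟩ := lo_of (K := K) (N := 4) Q33_hom P33_eval (by
      intro x hx k
      have h0 : x 0 = -(x 1 + x 2) := by linear_combination hx.1
      have hP : ∀ j, (P33 (K := K) j).eval x = T33 x j := fun j => congrFun (P33_eval x) j
      simp only [hP]
      fin_cases k
      · simp [Fin.sum_univ_three, Q33, T33, f3]
        rw [h0]
        field_simp
        ring
      · simp [Fin.sum_univ_three, Q33, T33, f3]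
        rw [h0]
        field_simp
        ring
      · simp [Fin.sum_univ_three, Q33, T33, f3]
        rw [h0]
        field_simp
        ring)
    refine ⟨C, fun x hx => ?_⟩
    have := hC x hx
    norm_num at this ⊢
    exact this
  Ezero := by
    refine ⟨max (logHeight (![-2, 1, 1] : Fin 3 → K)) (max (logHeight (![1, -2, 1] : Fin 3 → K))
      (logHeight (![1, 1, -2] : Fin 3 → K))), fun x hx hE => ?_⟩
    unfold E33 at hE
    have hs := hx.1
    rcases mul_eq_zero.1 hE with h | h
    · rcases mul_eq_zero.1 h with h | h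
      · refine zero_of (hx.2 1) ![-2, 1, 1] ?_ (le_max_left _ _)
        funext i
        fin_cases i
        · show x 0 = x 1 * (-2)
          linear_combination hs + h
        · show x 1 = x 1 * 1
          ring
        · show x 2 = x 1 * 1
          linear_combination -h
      · refine zero_of (hx.2 2) ![1, -2, 1] ?_ ((le_max_left _ _).trans (le_max_right _ _))
        funext i
        fin_cases i
        · show x 0 = x 2 * 1
          linear_combination -h
        · show x 1 = x 2 * (-2)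
          linear_combination hs + h
        · show x 2 = x 2 * 1
          ring
    · refine zero_of (hx.2 0) ![1, 1, -2] ?_ ((le_max_right _ _).trans (le_max_right _ _))
      funext i
      fin_cases i
      · show x 0 = x 0 * 1
        ring
      · show x 1 = x 0 * 1
        linear_combination -h
      · show x 2 = x 0 * (-2)
        linear_combination hs + h

end Pool.Agent.Q239.NF
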