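import Pool.Agent.Q239.NF.Maps

/-!
# The self-maps of signature `(2,4,4)` and `(2,3,6)`
-/

set_option autoImplicit false

namespace Pool.Agent.Q239.NF

open NumberField IsDedekindDomain Height MvPolynomial

variable {K : Type} [Field K] [NumberField K]

/-! ### signature `(2,4,4)` -/

def T24 (x : Fin 3 → K) : Fin 3 → K :=
  ![-(x 1 - x 2) ^ 2, -4 * x 1 * x 2, x 0 ^ 2]

def E24 (x : Fin 3 → K) : K := x 1 - x 2

noncomputable def P24 : Fin 3 → MvPolynomial (Fin 3) K :=
  ![-(X 1 - X 2) ^ 2, C (-4) * (X 1 * X 2), X 0 ^ 2]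

omit [NumberField K] in
lemma P24_hom (i : Fin 3) : (P24 (K := K) i).IsHomogeneous 2 := by
  fin_cases i
  · exact (((hX 1).sub (hX 2)).pow 2).neg
  · exact hC _ ((hX 1).mul (hX 2))
  · exact (hX 0).pow 2

omit [NumberField K] in
lemma P24_eval (x : Fin 3 → K) : (fun j => (P24 (K := K) j).eval x) = T24 x := by
  funext j
  fin_cases j <;> simp [P24, T24]
  ring

noncomputable def Q24 : Fin 3 × Fin 3 → MvPolynomial (Fin 3) K := fun kj =>
  match kj with
  | (0, 2) => f1 1 0 0 1
  | (1, 1) => f1 (1 / 2) (1 / 4) 1 2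
  | (1, 2) => f1 1 0 1 2
  | (2, 1) => f1 (1 / 4) (1 / 2) 1 2
  | (2, 2) => f1 0 1 1 2
  | _ => 0

omit [NumberField K] in
lemma Q24_hom (a : Fin 3 × Fin 3) : (Q24 (K := K) a).IsHomogeneous 1 := by
  unfold Q24
  split
  · exact hf1 _ _ _ _
  · exact hf1 _ _ _ _
  · exact hf1 _ _ _ _
  · exact hf1 _ _ _ _
  · exact hf1 _ _ _ _
  · exact isHomogeneous_zero _ _ _

/-- the self-map of signature `(2,4,4)` -/
noncomputable def step24 : Step K where
  T := T24
  E := E24
  e := 1
  c := 2
  hc := two_ne_zero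
  good := by
    intro x hx hE
    have h0 : x 0 = -(x 1 + x 2) := by linear_combination hx.1
    refine ⟨?_, ?_⟩
    · simp only [T24, Matrix.cons_val_zero, Matrix.cons_val_one, Matrix.cons_val]
      rw [h0]
      ring
    · intro i
      fin_cases i
      · exact neg_ne_zero.2 (pow_ne_zero _ hE)
      · exact mul_ne_zero (mul_ne_zero (by norm_num) (hx.2 1)) (hx.2 2)
      · exact pow_ne_zero _ (hx.2 0)
  Efin := by
    intro v x
    unfold E24
    rw [pow_one]
    exact (fin_sub_le v _ _).trans (max_le (le_sup v.1 x 1) (le_sup v.1 x 2))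
  Einf := by
    refine ⟨2, by norm_num, fun w x => ?_⟩
    unfold E24
    have := inf_lin w 1 (-1) (x 1) (x 2) (le_sup w.1 x 1) (le_sup w.1 x 2)
    norm_num at this
    rw [pow_one]
    rwa [← sub_eq_add_neg] at this
  loc := by
    intro v x m hm hx _ hc hE
    unfold E24 at hE
    rw [pow_one] at hE
    have h2 : v (2 : K) = 1 := by exact_mod_cast hc
    have h4 : v (-4 : K) = 1 := by
      rw [fin_neg, show (4 : K) = 2 * 2 by norm_num, map_mul, h2, one_mul]
    have key : ∀ i, v (T24 x i) = m ^ 2 := by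
      intro i
      fin_cases i
      · show v (-(x 1 - x 2) ^ 2) = _
        rw [fin_neg, map_pow, hE]
      · show v (-4 * x 1 * x 2) = _
        rw [map_mul, map_mul, h4, hx, hx]; ring
      · show v (x 0 ^ 2) = _
        rw [map_pow, hx]
    intro i j
    rw [key, key]
  he := le_rfl
  up := by
    obtain ⟨C, hC⟩ := up_of (K := K) P24_hom P24_eval
    refine ⟨C, fun x => ?_⟩
    have := hC x
    norm_num at this ⊢
    exact this
  lo := by
    obtain ⟨C, hC⟩ := lo_of (K := K) (N := 2) Q24_hom P24_eval (by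
      intro x hx k
      have h0 : x 0 = -(x 1 + x 2) := by linear_combination hx.1
      have hP : ∀ j, (P24 (K := K) j).eval x = T24 x j := fun j => congrFun (P24_eval x) j
      simp only [hP]
      fin_cases k
      · simp [Fin.sum_univ_three, Q24, T24, f1]
        ring
      · simp [Fin.sum_univ_three, Q24, T24, f1]
        rw [h0]
        field_simp
        ring
      · simp [Fin.sum_univ_three, Q24, T24, f1]
        rw [h0]
        field_simp
        ring)
    refine ⟨C, fun x hx => ?_⟩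
    have := hC x hx
    norm_num at this ⊢
    exact this
  Ezero := by
    refine ⟨logHeight (![-2, 1, 1] : Fin 3 → K), fun x hx hE => ?_⟩
    unfold E24 at hE
    have hs := hx.1
    refine zero_of (hx.2 1) ![-2, 1, 1] ?_ le_rfl
    funext i
    fin_cases i
    · show x 0 = x 1 * (-2)
      linear_combination hs + hE
    · show x 1 = x 1 * 1
      ring
    · show x 2 = x 1 * 1
      linear_combination -hE

/-! ### signature `(2,3,6)` -/

def T26 (x : Fin 3 → K) : Fin 3 → K :=
  ![-(x 0 * (x 1 - 8 * x 2) ^ 2), -(x 1 + 4 * x 2) ^ 3, 27 * x 2 * x 1 ^ 2]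

def E26 (x : Fin 3 → K) : K := (x 1 + 4 * x 2) * (x 1 - 8 * x 2)

noncomputable def P26 : Fin 3 → MvPolynomial (Fin 3) K :=
  ![-(X 0 * (f1 1 (-8) 1 2) ^ 2), -(f1 1 4 1 2) ^ 3, C 27 * (X 2 * X 1 ^ 2)]

omit [NumberField K] in
lemma P26_hom (i : Fin 3) : (P26 (K := K) i).IsHomogeneous 3 := by
  fin_cases i
  · exact ((hX 0).mul ((hf1 _ _ _ _).pow 2)).neg
  · exact ((hf1 _ _ _ _).pow 3).neg
  · exact hC _ ((hX 2).mul ((hX 1).pow 2))

omit [NumberField K] in
lemma P26_eval (x : Fin 3 → K) : (fun j => (P26 (K := K) j).eval x) = T26 x := by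
  funext j
  fin_cases j
  · simp [P26, T26, f1]
    left
    ring
  · simp [P26, T26, f1]
  · simp [P26, T26, f1]
    ring

noncomputable def Q26 : Fin 3 × Fin 3 → MvPolynomial (Fin 3) K := fun kj =>
  match kj with
  | (0, 1) => f2 1 (17 / 256) (4 / 256) 1 2
  | (0, 2) => f2 (67 / 256) (368 / 256) (544 / 256) 1 2
  | (1, 1) => f2 (-1) 0 0 1 2
  | (1, 2) => f2 (-(12 / 27)) (-(48 / 27)) (-(64 / 27)) 1 2
  | (2, 1) => f2 0 (81 / 6912) (-(108 / 6912)) 1 2
  | (2, 2) => f2 (3 / 6912) (32 / 6912) (96 / 6912) 1 2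
  | _ => 0

omit [NumberField K] in
lemma Q26_hom (a : Fin 3 × Fin 3) : (Q26 (K := K) a).IsHomogeneous 2 := by
  unfold Q26
  split
  · exact hf2 _ _ _ _ _
  · exact hf2 _ _ _ _ _
  · exact hf2 _ _ _ _ _
  · exact hf2 _ _ _ _ _
  · exact hf2 _ _ _ _ _
  · exact hf2 _ _ _ _ _
  · exact isHomogeneous_zero _ _ _

lemma fin4 (v : FinitePlace K) (y z : K) {m : ℝ} (hy : v y ≤ m) (hz : v z ≤ m) :
    v (y + 4 * z) ≤ m := by
  have := fin_lin v 1 4 y z hy hz
  norm_num at this
  exact this

lemma fin8 (v : FinitePlace K) (y z : K) {m : ℝ} (hy : v y ≤ m) (hz : v z ≤ m) :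
    v (y - 8 * z) ≤ m := by
  have := fin_lin v 1 (-8) y z hy hz
  norm_num at this
  rwa [← sub_eq_add_neg] at this

/-- the self-map of signature `(2,3,6)` -/
noncomputable def step26 : Step K where
  T := T26
  E := E26
  e := 2
  c := 3
  hc := three_ne_zero
  good := by
    intro x hx hE
    have h0 : x 0 = -(x 1 + x 2) := by linear_combination hx.1
    unfold E26 at hE
    have h1 := left_ne_zero_of_mul hE
    have h2 := right_ne_zero_of_mul hE
    refine ⟨?_, ?_⟩
    · simp only [T26, Matrix.cons_val_zero, Matrix.cons_val_one, Matrix.cons_val]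
      rw [h0]
      ring
    · intro i
      fin_cases i
      · exact neg_ne_zero.2 (mul_ne_zero (hx.2 0) (pow_ne_zero _ h2))
      · exact neg_ne_zero.2 (pow_ne_zero _ h1)
      · exact mul_ne_zero (mul_ne_zero (by norm_num) (hx.2 2)) (pow_ne_zero _ (hx.2 1))
  Efin := by
    intro v x
    unfold E26
    rw [map_mul]
    have a1 := fin4 v (x 1) (x 2) (le_sup v.1 x 1) (le_sup v.1 x 2)
    have a2 := fin8 v (x 1) (x 2) (le_sup v.1 x 1) (le_sup v.1 x 2)
    have b2 : 0 ≤ v (x 1 - 8 * x 2) := v.1.nonneg _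
    have b0 : 0 ≤ ⨆ i, v (x i) := sup_nonneg v.1 x
    calc v (x 1 + 4 * x 2) * v (x 1 - 8 * x 2) ≤ (⨆ i, v (x i)) * (⨆ i, v (x i)) :=
          mul_le_mul a1 a2 b2 b0
      _ = _ := by ring
  Einf := by
    refine ⟨45, by norm_num, fun w x => ?_⟩
    unfold E26
    rw [map_mul]
    have a1 := inf_lin w 1 4 (x 1) (x 2) (le_sup w.1 x 1) (le_sup w.1 x 2)
    have a2 := inf_lin w 1 (-8) (x 1) (x 2) (le_sup w.1 x 1) (le_sup w.1 x 2)
    norm_num at a1 a2
    rw [← sub_eq_add_neg] at a2
    have b2 : 0 ≤ w (x 1 - 8 * x 2) := w.1.nonneg _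
    have b0 : 0 ≤ ⨆ i, w (x i) := sup_nonneg w.1 x
    calc w (x 1 + 4 * x 2) * w (x 1 - 8 * x 2) ≤ (5 * ⨆ i, w (x i)) * (9 * ⨆ i, w (x i)) :=
          mul_le_mul a1 a2 b2 (by positivity)
      _ = _ := by ring
  loc := by
    intro v x m hm hx _ hc hE
    unfold E26 at hE
    rw [map_mul] at hE
    have a1 := fin4 v (x 1) (x 2) (hx 1).le (hx 2).le
    have a2 := fin8 v (x 1) (x 2) (hx 1).le (hx 2).le
    have b1 : 0 ≤ v (x 1 + 4 * x 2) := v.1.nonneg _
    have b2 : 0 ≤ v (x 1 - 8 * x 2) := v.1.nonneg _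
    have c1 : v (x 1 + 4 * x 2) = m := by
      refine le_antisymm a1 ?_
      by_contra hlt
      push Not at hlt
      nlinarith
    have c2 : v (x 1 - 8 * x 2) = m := by
      rw [c1, pow_two] at hE
      exact mul_left_cancel₀ hm.ne' hE
    have h3 : v (3 : K) = 1 := by exact_mod_cast hc
    have h27 : v (27 : K) = 1 := by
      rw [show (27 : K) = 3 * 3 * 3 by norm_num, map_mul, map_mul, h3, one_mul, one_mul]
    have key : ∀ i, v (T26 x i) = m ^ 3 := by
      intro i
      fin_cases i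
      · show v (-(x 0 * (x 1 - 8 * x 2) ^ 2)) = _
        rw [fin_neg, map_mul, map_pow, hx, c2]; ring
      · show v (-(x 1 + 4 * x 2) ^ 3) = _
        rw [fin_neg, map_pow, c1]
      · show v (27 * x 2 * x 1 ^ 2) = _
        rw [map_mul, map_mul, map_pow, h27, hx, hx]; ring
    intro i j
    rw [key, key]
  he := by norm_num
  up := by
    obtain ⟨C, hC⟩ := up_of (K := K) P26_hom P26_eval
    refine ⟨C, fun x => ?_⟩
    have := hC x
    norm_num at this ⊢
    exact this
  lo := by
    obtain ⟨C, hC⟩ := lo_of (K := K) (N := 3) Q26_hom P26_eval (by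
      intro x hx k
      have h0 : x 0 = -(x 1 + x 2) := by linear_combination hx.1
      have hP : ∀ j, (P26 (K := K) j).eval x = T26 x j := fun j => congrFun (P26_eval x) j
      simp only [hP]
      fin_cases k
      · simp [Fin.sum_univ_three, Q26, T26, f2]
        rw [h0]
        field_simp
        ring
      · simp [Fin.sum_univ_three, Q26, T26, f2]
        field_simp
        ring
      · simp [Fin.sum_univ_three, Q26, T26, f2]
        field_simp
        ring)
    refine ⟨C, fun x hx => ?_⟩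
    have := hC x hx
    norm_num at this ⊢
    exact this
  Ezero := by
    refine ⟨max (logHeight (![3, -4, 1] : Fin 3 → K)) (logHeight (![-9, 8, 1] : Fin 3 → K)),
      fun x hx hE => ?_⟩
    unfold E26 at hE
    have hs := hx.1
    rcases mul_eq_zero.1 hE with h | h
    · refine zero_of (hx.2 2) ![3, -4, 1] ?_ (le_max_left _ _)
      funext i
      fin_cases i
      · show x 0 = x 2 * 3
        linear_combination hs - h
      · show x 1 = x 2 * (-4)
        linear_combination h
      · show x 2 = x 2 * 1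
        ring
    · refine zero_of (hx.2 2) ![-9, 8, 1] ?_ (le_max_right _ _)
      funext i
      fin_cases i
      · show x 0 = x 2 * (-9)
        linear_combination hs - h
      · show x 1 = x 2 * 8
        linear_combination h
      · show x 2 = x 2 * 1
        ring

end Pool.Agent.Q239.NF
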