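import Pool.Agent.Q239.NF.Maps2

/-!
# The shape of the iterates, and the theorem on almost-powers
-/

set_option autoImplicit false

namespace Pool.Agent.Q239.NF

open NumberField IsDedekindDomain Height MvPolynomial

variable {K : Type} [Field K] [NumberField K]

lemma vec3 {x : Fin 3 → K} {a b c : K} (h0 : x 0 = a) (h1 : x 1 = b) (h2 : x 2 = c) :
    x = ![a, b, c] := by
  funext i
  fin_cases i
  · exact h0
  · exact h1
  · exact h2

omit [NumberField K] in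
lemma shape33 (x : Fin 3 → K) (n : ℕ) : ∃ w : Fin 3 → K, ∀ i, T33^[n] x i = x i * w i ^ 3 := by
  induction n with
  | zero => exact ⟨fun _ => 1, fun i => by simp⟩
  | succ n ih =>
    obtain ⟨w, hw⟩ := ih
    rw [Function.iterate_succ_apply']
    refine ⟨![w 0 * (T33^[n] x 1 - T33^[n] x 2), w 1 * (T33^[n] x 2 - T33^[n] x 0),
      w 2 * (T33^[n] x 0 - T33^[n] x 1)], ?_⟩
    intro i
    fin_cases i
    · show T33^[n] x 0 * (T33^[n] x 1 - T33^[n] x 2) ^ 3 =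
        x 0 * (w 0 * (T33^[n] x 1 - T33^[n] x 2)) ^ 3
      rw [mul_pow, ← mul_assoc, ← hw 0]
    · show T33^[n] x 1 * (T33^[n] x 2 - T33^[n] x 0) ^ 3 =
        x 1 * (w 1 * (T33^[n] x 2 - T33^[n] x 0)) ^ 3
      rw [mul_pow, ← mul_assoc, ← hw 1]
    · show T33^[n] x 2 * (T33^[n] x 0 - T33^[n] x 1) ^ 3 =
        x 2 * (w 2 * (T33^[n] x 0 - T33^[n] x 1)) ^ 3
      rw [mul_pow, ← mul_assoc, ← hw 2]

omit [NumberField K] in
lemma shape24 (x : Fin 3 → K) (n : ℕ) : ∃ a b c : K,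
    T24^[n + 2] x 0 = -1 * a ^ 2 ∧ T24^[n + 2] x 1 = (-4) ^ (n + 2) * (x 1 * x 2 * x 0 ^ 2) * b ^ 4 ∧
    T24^[n + 2] x 2 = 1 * c ^ 4 := by
  induction n with
  | zero =>
    refine ⟨T24 x 1 - T24 x 2, 1, x 1 - x 2, ?_, ?_, ?_⟩
    · show -(T24 x 1 - T24 x 2) ^ 2 = _
      ring
    · show -4 * (-4 * x 1 * x 2) * (x 0 ^ 2) = _
      ring
    · show (-(x 1 - x 2) ^ 2) ^ 2 = _
      ring
  | succ n ih =>
    obtain ⟨a, b, c, h0, h1, h2⟩ := ih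
    rw [show n + 1 + 2 = (n + 2) + 1 by ring, Function.iterate_succ_apply']
    refine ⟨T24^[n + 2] x 1 - T24^[n + 2] x 2, b * c, a, ?_, ?_, ?_⟩
    · show -(T24^[n + 2] x 1 - T24^[n + 2] x 2) ^ 2 = _
      ring
    · show -4 * T24^[n + 2] x 1 * T24^[n + 2] x 2 = _
      rw [h1, h2, pow_succ (-4 : K) (n + 2)]
      ring
    · show (T24^[n + 2] x 0) ^ 2 = _
      rw [h0]
      ring

omit [NumberField K] in
lemma shape26 (x : Fin 3 → K) (n : ℕ) : ∃ a b c : K,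
    T26^[n + 1] x 0 = (-1) ^ (n + 1) * x 0 * a ^ 2 ∧ T26^[n + 1] x 1 = -1 * b ^ 3 ∧
    T26^[n + 1] x 2 = 27 ^ (n + 1) * (x 2 * x 1 ^ 2) * c ^ 6 := by
  induction n with
  | zero =>
    refine ⟨x 1 - 8 * x 2, x 1 + 4 * x 2, 1, ?_, ?_, ?_⟩
    · show -(x 0 * (x 1 - 8 * x 2) ^ 2) = _
      ring
    · show -(x 1 + 4 * x 2) ^ 3 = _
      ring
    · show 27 * x 2 * x 1 ^ 2 = _
      ring
  | succ n ih =>
    obtain ⟨a, b, c, h0, h1, h2⟩ := ih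
    rw [Function.iterate_succ_apply']
    refine ⟨a * (T26^[n + 1] x 1 - 8 * T26^[n + 1] x 2), T26^[n + 1] x 1 + 4 * T26^[n + 1] x 2,
      c * b, ?_, ?_, ?_⟩
    · show -(T26^[n + 1] x 0 * (T26^[n + 1] x 1 - 8 * T26^[n + 1] x 2) ^ 2) = _
      rw [h0, pow_succ (-1 : K) (n + 1)]
      ring
    · show -(T26^[n + 1] x 1 + 4 * T26^[n + 1] x 2) ^ 3 = _
      ring
    · show 27 * T26^[n + 1] x 2 * T26^[n + 1] x 1 ^ 2 = _
      rw [h2, h1, pow_succ (27 : K) (n + 1)]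
      ring

lemma height_poly {N : ℕ} {P : Fin 4 → MvPolynomial (Fin 3) K} (hP : ∀ i, (P i).IsHomogeneous N)
    (f : (Fin 3 → K) → (Fin 4 → K)) (hf : ∀ x : Fin 3 → K, x 2 = 1 → (fun j => (P j).eval x) = f x) :
    ∃ C : ℝ, ∀ x : Fin 3 → K, x 2 = 1 → logHeight (f x) ≤ C + N * logHeight x := by
  obtain ⟨C, hC⟩ := logHeight_eval_le' hP
  refine ⟨C, fun x hx => ?_⟩
  have := hC x
  rwa [hf x hx] at this

theorem almost33 {δ : ℝ} (hδ : 0 < δ) :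
    abcOn (Almost (K := K) 3 3 3 δ) → abcOn (Set.univ : Set (Fin 3 → K)) := by
  refine (step33 (K := K)).almost hδ ⟨1, by norm_num, fun n _ => ⟨0, ?_⟩⟩
    (by norm_num) (by norm_num) (by norm_num)
  intro x hx hx2 _
  obtain ⟨w, hw⟩ := shape33 x n
  refine ⟨x 0, x 1, x 2, w 0, w 1, w 2, hx.2 0, hx.2 1, hx.2 2, vec3 (hw 0) (hw 1) (hw 2), ?_⟩
  rw [hx2]
  have h1 : (![1, x 0, x 1, 1] : Fin 4 → K) = x ∘ (![2, 0, 1, 2] : Fin 4 → Fin 3) := by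
    funext i
    fin_cases i
    · exact hx2.symm
    · rfl
    · rfl
    · exact hx2.symm
  rw [h1]
  have := logHeight_comp_le (![2, 0, 1, 2] : Fin 4 → Fin 3) x
  linarith

theorem almost24 {δ : ℝ} (hδ : 0 < δ) :
    abcOn (Almost (K := K) 2 4 4 δ) → abcOn (Set.univ : Set (Fin 3 → K)) := by
  refine (step24 (K := K)).almost hδ ⟨(4 : ℕ), by norm_num, fun n hn => ?_⟩
    (by norm_num) (by norm_num) (by norm_num)
  obtain ⟨m, rfl⟩ : ∃ m, n = m + 2 := ⟨n - 2, by omega⟩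
  obtain ⟨C, hC⟩ := height_poly (K := K) (N := 4)
    (P := ![X 2 ^ 4, -X 2 ^ 4, C ((-4) ^ (m + 2)) * (X 1 * X 2 * X 0 ^ 2), X 2 ^ 4])
    (fun i => by
      fin_cases i
      · exact (hX 2).pow 4
      · exact ((hX 2).pow 4).neg
      · exact hC _ (((hX 1).mul (hX 2)).mul ((hX 0).pow 2))
      · exact (hX 2).pow 4)
    (fun x => ![1, -1, (-4) ^ (m + 2) * (x 1 * x 2 * x 0 ^ 2), 1])
    (fun x hx => by
      funext j
      fin_cases j
      · simp [hx]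
      · simp [hx]
      · simp
      · simp [hx])
  refine ⟨C, fun x hx hx2 _ => ?_⟩
  obtain ⟨a, b, c, h0, h1, h2⟩ := shape24 x m
  refine ⟨-1, (-4) ^ (m + 2) * (x 1 * x 2 * x 0 ^ 2), 1, a, b, c, by norm_num, ?_, one_ne_zero,
    vec3 h0 h1 h2, hC x hx2⟩
  exact mul_ne_zero (pow_ne_zero _ (by norm_num)) (mul_ne_zero (mul_ne_zero (hx.2 1) (hx.2 2))
    (pow_ne_zero _ (hx.2 0)))

theorem almost26 {δ : ℝ} (hδ : 0 < δ) :
    abcOn (Almost (K := K) 2 3 6 δ) → abcOn (Set.univ : Set (Fin 3 → K)) := by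
  refine (step26 (K := K)).almost hδ ⟨(3 : ℕ), by norm_num, fun n hn => ?_⟩
    (by norm_num) (by norm_num) (by norm_num)
  obtain ⟨m, rfl⟩ : ∃ m, n = m + 1 := ⟨n - 1, by omega⟩
  obtain ⟨C, hC⟩ := height_poly (K := K) (N := 3)
    (P := ![X 2 ^ 3, C ((-1) ^ (m + 1)) * (X 0 * X 2 ^ 2), -X 2 ^ 3,
      C (27 ^ (m + 1)) * (X 2 * X 1 ^ 2)])
    (fun i => by
      fin_cases i
      · exact (hX 2).pow 3
      · exact hC _ ((hX 0).mul ((hX 2).pow 2))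
      · exact ((hX 2).pow 3).neg
      · exact hC _ ((hX 2).mul ((hX 1).pow 2)))
    (fun x => ![1, (-1) ^ (m + 1) * x 0, -1, 27 ^ (m + 1) * (x 2 * x 1 ^ 2)])
    (fun x hx => by
      funext j
      fin_cases j
      · simp [hx]
      · simp [hx]
      · simp [hx]
      · simp)
  refine ⟨C, fun x hx hx2 _ => ?_⟩
  obtain ⟨a, b, c, h0, h1, h2⟩ := shape26 x m
  refine ⟨(-1) ^ (m + 1) * x 0, -1, 27 ^ (m + 1) * (x 2 * x 1 ^ 2), a, b, c, ?_, by norm_num, ?_,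
    vec3 h0 h1 h2, hC x hx2⟩
  · exact mul_ne_zero (pow_ne_zero _ (by norm_num)) (hx.2 0)
  · exact mul_ne_zero (pow_ne_zero _ (by norm_num)) (mul_ne_zero (hx.2 2)
      (pow_ne_zero _ (hx.2 1)))

end Pool.Agent.Q239.NF
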