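import Pool.Agent.Q239.NF.Basic

/-!
# One step: the radical grows by at most `(d - 1)` times the height
-/

set_option autoImplicit false

namespace Pool.Agent.Q239.NF

open NumberField IsDedekindDomain Height

/-- a point of the line with nonzero coordinates -/
def Good {K : Type} [Field K] (x : Fin 3 → K) : Prop :=
  x 0 + x 1 + x 2 = 0 ∧ ∀ i, x i ≠ 0

/-- the part of the data needed for the radical: a map `T` to the line, a form `E` of degree `e`, the
other critical points, and an integer `c ≠ 0` -/
structure Ram (K : Type) [Field K] [NumberField K] where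
  T : (Fin 3 → K) → (Fin 3 → K)
  E : (Fin 3 → K) → K
  e : ℕ
  c : ℕ
  hc : c ≠ 0
  good : ∀ x, Good x → E x ≠ 0 → Good (T x)
  Efin : ∀ (v : FinitePlace K) (x : Fin 3 → K), v (E x) ≤ (⨆ i, v (x i)) ^ e
  Einf : ∃ C : ℝ, 0 < C ∧ ∀ (w : InfinitePlace K) (x : Fin 3 → K),
    w (E x) ≤ C * (⨆ i, w (x i)) ^ e
  loc : ∀ (v : FinitePlace K) (x : Fin 3 → K) (m : ℝ), 0 < m → (∀ i, v (x i) = m) → Good x →
    v (c : K) = 1 → v (E x) = m ^ e → ∀ i j, v (T x i) = v (T x j)

variable {K : Type} [Field K] [NumberField K]

lemma Good.ne_zero {x : Fin 3 → K} (h : Good x) : x ≠ 0 := by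
  intro h0
  exact h.2 0 (by rw [h0]; rfl)

theorem Ram.radical (s : Ram K) : ∃ C : ℝ, ∀ x, Good x → s.E x ≠ 0 →
    RR (s.T x) ≤ RR x + s.e * logHeight x + C := by
  classical
  obtain ⟨C, hC, hE⟩ := s.Einf
  refine ⟨∑ w : InfinitePlace K, (w.mult : ℝ) * Real.log (w (s.c : K)) +
    ∑ w : InfinitePlace K, (w.mult : ℝ) * Real.log C, ?_⟩
  intro x hx hEx
  have hx0 := hx.ne_zero
  have hc0 : (s.c : K) ≠ 0 := by exact_mod_cast s.hc
  have hT := s.good x hx hEx
  -- the three functions
  set f : FinitePlace K → ℝ := (Bad x).indicator lN with hf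
  set g : FinitePlace K → ℝ := fun v => -Real.log (v (s.c : K)) with hg
  set h : FinitePlace K → ℝ := fun v => s.e * Real.log (⨆ i, v (x i)) - Real.log (v (s.E x)) with hh
  have hf0 : ∀ v, 0 ≤ f v := fun v => Set.indicator_nonneg (fun v _ => lN_nonneg v) v
  have hg0 : ∀ v, 0 ≤ g v := fun v => by
    have h1 : v (s.c : K) ≤ 1 := nat_le v s.c
    have h2 : 0 < v (s.c : K) := v.1.pos hc0
    have := Real.log_nonpos h2.le h1
    simp only [hg]; linarith
  have hh0 : ∀ v, 0 ≤ h v := fun v => by
    have h1 := s.Efin v x
    have h2 : 0 < v (s.E x) := v.1.pos hEx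
    have h3 := Real.log_le_log h2 h1
    rw [Real.log_pow] at h3
    simp only [hh]; linarith
  have hsf : (Function.support f).Finite :=
    (bad_finite hx.2).subset Set.support_indicator_subset
  have hsg : (Function.support g).Finite := by
    refine (fin_ne_one hc0).subset fun v hv => ?_
    simp only [Set.mem_ofPred_eq]
    intro h1
    apply hv
    simp only [hg, h1, Real.log_one, neg_zero]
  have hs1 : (Function.support fun v : FinitePlace K => (s.e : ℝ) * Real.log (⨆ i, v (x i))).Finite := by
    refine (sup_fin hx0).subset fun v hv => ?_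
    simp only [Set.mem_ofPred_eq]
    intro h1
    apply hv
    simp only [h1, Real.log_one, mul_zero]
  have hs1' : (Function.support fun v : FinitePlace K => Real.log (⨆ i, v (x i))).Finite := by
    refine (sup_fin hx0).subset fun v hv => ?_
    simp only [Set.mem_ofPred_eq]
    intro h1
    apply hv
    simp only [h1, Real.log_one]
  have hs2 : (Function.support fun v : FinitePlace K => Real.log (v (s.E x))).Finite := by
    refine (fin_ne_one hEx).subset fun v hv => ?_
    simp only [Set.mem_ofPred_eq]
    intro h1
    apply hv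
    simp only [h1, Real.log_one]
  have hsh : (Function.support h).Finite := by
    refine (hs1.union hs2).subset fun v hv => ?_
    by_contra hcon
    rw [Set.mem_union, not_or, Function.notMem_support, Function.notMem_support] at hcon
    apply hv
    simp only [hh]
    rw [hcon.1, hcon.2, sub_zero]
  have key : ∀ v, (Bad (s.T x)).indicator lN v ≤ f v + g v + h v := by
    intro v
    by_cases hb : v ∈ Bad (s.T x)
    · rw [Set.indicator_of_mem hb]
      by_cases hbx : v ∈ Bad x
      · have : f v = lN v := Set.indicator_of_mem hbx _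
        have := hg0 v
        have := hh0 v
        linarith
      · have hall : ∀ i j, v (x i) = v (x j) := by
          intro i j
          by_contra hij
          exact hbx ⟨i, j, hij⟩
        have hm : ∀ i, v (x i) = v (x 0) := fun i => hall i 0
        have hm0 : 0 < v (x 0) := v.1.pos (hx.2 0)
        have hsup : (⨆ i, v (x i)) = v (x 0) := by
          simp only [hm, ciSup_const]
        by_cases hc1 : v (s.c : K) = 1
        · have hne : v (s.E x) ≠ v (x 0) ^ s.e := by
            intro h1
            obtain ⟨i, j, hij⟩ := hb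
            exact hij (s.loc v x (v (x 0)) hm0 hm hx hc1 h1 i j)
          have hlt : v (s.E x) < v (x 0) ^ s.e := by
            refine lt_of_le_of_ne ?_ hne
            have := s.Efin v x
            rwa [hsup] at this
          have h2 := gap2 v (y := s.E x) (z := x 0 ^ s.e) hEx (pow_ne_zero _ (hx.2 0))
            (by rw [map_pow]; exact hlt)
          rw [map_pow, Real.log_pow] at h2
          have h3 : h v = s.e * Real.log (v (x 0)) - Real.log (v (s.E x)) := by
            simp only [hh, hsup]
          have := hf0 v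
          have := hg0 v
          linarith
        · have h1 : v (s.c : K) < 1 := lt_of_le_of_ne (nat_le v s.c) hc1
          have h2 := gap_log v hc0 h1
          have h3 : g v = -Real.log (v (s.c : K)) := rfl
          have := hf0 v
          have := hh0 v
          linarith
    · rw [Set.indicator_of_notMem hb]
      have := hf0 v
      have := hg0 v
      have := hh0 v
      linarith
  have hsum : RR (s.T x) ≤ ∑ᶠ v, f v + ∑ᶠ v, g v + ∑ᶠ v, h v := by
    rw [RR_eq, ← finsum_add_distrib hsf hsg, ← finsum_add_distrib _ hsh]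
    · refine finsum_le_finsum' ?_ ?_ key
      · exact (bad_finite hT.2).subset Set.support_indicator_subset
      · refine ((hsf.union hsg).union hsh).subset ?_
        refine (Function.support_add _ _).trans (Set.union_subset_union_left _ ?_)
        exact Function.support_add _ _
    · exact (hsf.union hsg).subset (Function.support_add _ _)
  have hG : ∑ᶠ v, g v = ∑ w : InfinitePlace K, (w.mult : ℝ) * Real.log (w (s.c : K)) := by
    have h1 := sum_log hc0
    have h2 : ∑ᶠ v, g v = -∑ᶠ v : FinitePlace K, Real.log (v (s.c : K)) := by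
      rw [← finsum_neg_distrib]
    linarith
  have hH : ∑ᶠ v, h v ≤ s.e * logHeight x + ∑ w : InfinitePlace K, (w.mult : ℝ) * Real.log C := by
    have h1 : ∑ᶠ v, h v = ∑ᶠ v : FinitePlace K, (s.e : ℝ) * Real.log (⨆ i, v (x i)) -
        ∑ᶠ v : FinitePlace K, Real.log (v (s.E x)) := finsum_sub_distrib hs1 hs2
    have h2 : ∑ᶠ v : FinitePlace K, (s.e : ℝ) * Real.log (⨆ i, v (x i)) =
        s.e * ∑ᶠ v : FinitePlace K, Real.log (⨆ i, v (x i)) := by
      rw [mul_finsum]
    have h3 := sum_log hEx
    have h4 := height_eq hx0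
    have h5 : ∑ w : InfinitePlace K, (w.mult : ℝ) * Real.log (w (s.E x)) ≤
        ∑ w : InfinitePlace K, (w.mult : ℝ) * (Real.log C + s.e * Real.log (⨆ i, w (x i))) := by
      refine Finset.sum_le_sum fun w _ => ?_
      have h6 : 0 < w (s.E x) := w.1.pos hEx
      have h7 : 0 < ⨆ i, w (x i) := sup_pos hx0 w.1
      have h8 := Real.log_le_log h6 (hE w x)
      rw [Real.log_mul hC.ne' (pow_pos h7 _).ne', Real.log_pow] at h8
      exact mul_le_mul_of_nonneg_left h8 (Nat.cast_nonneg _)
    have h9 : ∑ w : InfinitePlace K, (w.mult : ℝ) * (Real.log C + s.e * Real.log (⨆ i, w (x i))) =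
        ∑ w : InfinitePlace K, (w.mult : ℝ) * Real.log C +
        s.e * ∑ w : InfinitePlace K, (w.mult : ℝ) * Real.log (⨆ i, w (x i)) := by
      rw [Finset.mul_sum, ← Finset.sum_add_distrib]
      refine Finset.sum_congr rfl fun w _ => ?_
      ring
    have h10 : (s.e : ℝ) * logHeight x =
        s.e * (∑ w : InfinitePlace K, (w.mult : ℝ) * Real.log (⨆ i, w (x i))) +
        s.e * ∑ᶠ v : FinitePlace K, Real.log (⨆ i, v (x i)) := by
      rw [h4]; ring
    linarith
  have hF : ∑ᶠ v, f v = RR x := (RR_eq x).symm
  linarith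

end Pool.Agent.Q239.NF
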